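import Pool.Agent.H49.KA.Main
import Pool.Agent.H49.KA.SN

open H49KA

universe u

/-- Let `G` be an infinite locally finite group of alternating type.  If the augmentation
ideal of its complex group algebra is a simple ring, then `G` has no proper confined
subgroup. -/
theorem Pool.Agent.Results.MP_784abc_al.AltQuot.result (G : Type u) [Group G] [Infinite G]
    (hG : LocFin G) (hQ : AltQuot G) (hA : AugSimple G) : NoConf G :=
  (main G hG).2.1 hQ hA
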