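import Pool.Agent.H49.KF.Defs
import Pool.Agent.H49.KF.Bridge

open H49KF

universe u

/-- Let `G` be an infinite locally finite group which has a local system of finite subgroups
whose tops are alternating, classical, or have small character ratios (or, if `G` is not linear,
are projectively linear of bounded degree). Then the augmentation ideal of the complex group
algebra of `G` is a simple ring if and only if `G` is simple, `G` is not finitary linear over a
finite field, and, in case `G` is of alternating type, the finite subgroups of `G` have regular
orbits in the natural actions of the alternating quotients of large finite subgroups. -/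
theorem Pool.Agent.Results.MP_784abc_al.Classification.result (G : Type u) [Group G] [Infinite G]
    (hG : LocFin G) (d : ℕ) (𝓛 : Set (Subgroup G)) (h𝓛 : LocalSystem 𝓛) (hT : AllTops d 𝓛) :
    AugSimple G ↔ IsSimpleGroup G ∧ ¬ FinFin G ∧ (AltQuot G → RegOrb G) :=
  classification G hG d 𝓛 h𝓛 hT
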