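import Pool.Agent.H49.KF.Defs
import Pool.Agent.H49.KF.Bridge

open H49KF

universe u

/-- Let `G` be an infinite locally finite group which has a local system of finite subgroups
whose tops are alternating, classical, or have small character ratios (or, if `G` is not linear,
are projectively linear of bounded degree). Then the augmentation ideal of the complex group
algebra of `G` is a simple ring if and only if `G` has no proper confined subgroup. -/
theorem Pool.Agent.Results.MP_784abc_al.Confined.result (G : Type u) [Group G] [Infinite G]
    (hG : LocFin G) (d : ℕ) (𝓛 : Set (Subgroup G)) (h𝓛 : LocalSystem 𝓛) (hT : AllTops d 𝓛) :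
    AugSimple G ↔ NoConf G :=
  confined_criterion G hG d 𝓛 h𝓛 hT
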